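import Pool.Agent.H623R2.VD.Comp

set_option autoImplicit false

/-!
Assembling structures from a list of components, each with infinite multiplicity.
-/

namespace Pool.Agent.H623R2.VD

open Set

variable {a : ℕ → ℕ} {M M' : Type}

/-- The universe of slices. -/
abbrev USl : Type := (ℕ ⊕ ℕ) × ℕ × ℕ

/-- Infinitely many copies of each of the structures `D k`. -/
def slB (D : ℕ ⊕ ℕ → Interp a ℕ) : Interp a USl := fun i t =>
  (∀ l l', (t l).1 = (t l').1 ∧ (t l).2.1 = (t l').2.1) ∧
  (∀ l, D (t l).1 i (fun l' => (t l').2.2)) ∧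
  (IsEmpty (Fin (a i)) → D (Sum.inl 0) i (fun l' => (t l').2.2))

/-- The inclusion of a slice. -/
def sl (k : ℕ ⊕ ℕ) (β : ℕ) (y : ℕ) : USl := (k, β, y)

theorem pull_sl {D : ℕ ⊕ ℕ → Interp a ℕ} (hnull : ∀ k k', NullEq (D k) (D k')) (k : ℕ ⊕ ℕ)
    (β : ℕ) : pull (slB D) (sl k β) = D k := by
  funext i t
  apply propext
  rcases isEmpty_or_nonempty (Fin (a i)) with hE | ⟨⟨k0⟩⟩
  · constructor
    · rintro ⟨_, _, h⟩
      exact (hnull (Sum.inl 0) k i hE _ _).1 (h hE)
    · intro h
      exact ⟨fun l => (hE.false l).elim, fun l => (hE.false l).elim,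
        fun _ => (hnull k (Sum.inl 0) i hE _ _).1 h⟩
  · constructor
    · rintro ⟨_, h, _⟩
      exact h k0
    · intro h
      exact ⟨fun l l' => ⟨rfl, rfl⟩, fun l => h, fun h0 => (h0.false k0).elim⟩

theorem adj_slB {D : ℕ ⊕ ℕ → Interp a ℕ} {u x : USl} (h : Adj (slB D) u x) :
    u.1 = x.1 ∧ u.2.1 = x.2.1 := by
  obtain ⟨i, t, ⟨h1, _⟩, ⟨l, rfl⟩, ⟨l', rfl⟩⟩ := h
  exact h1 l l'

theorem conn_slB {D : ℕ ⊕ ℕ → Interp a ℕ} {u x : USl} (h : Conn (slB D) u x) :
    u.1 = x.1 ∧ u.2.1 = x.2.1 := by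
  induction h with
  | refl => exact ⟨rfl, rfl⟩
  | tail _ h ih => exact ⟨ih.1.trans (adj_slB h).1, ih.2.trans (adj_slB h).2⟩

theorem sl_inj (k : ℕ ⊕ ℕ) (β : ℕ) : Function.Injective (sl k β) := by
  intro y y' h
  simpa [sl] using h

theorem sl_closed {D : ℕ ⊕ ℕ → Interp a ℕ} (k : ℕ ⊕ ℕ) (β : ℕ) (u : ℕ) (x : USl)
    (h : Adj (slB D) (sl k β u) x) : x ∈ range (sl k β) := by
  obtain ⟨h1, h2⟩ := adj_slB h
  obtain ⟨k', β', y⟩ := x
  refine ⟨y, ?_⟩
  simp only [sl] at h1 h2 ⊢
  rw [h1, h2]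

theorem sl_ciso {D : ℕ ⊕ ℕ → Interp a ℕ} (hnull : ∀ k k', NullEq (D k) (D k')) (k : ℕ ⊕ ℕ)
    (β : ℕ) (y : ℕ) : CIso (D k) (slB D) (sl k β) y := by
  have h := pull_ciso (slB D) (sl k β) (sl_inj k β) (sl_closed k β) y
  rwa [pull_sl hnull] at h

theorem sl_conn {D : ℕ ⊕ ℕ → Interp a ℕ} (hnull : ∀ k k', NullEq (D k) (D k')) (k : ℕ ⊕ ℕ)
    (β : ℕ) (y z : ℕ) : Conn (slB D) (sl k β y) (sl k β z) ↔ Conn (D k) y z := by
  have h := pull_conn (slB D) (sl k β) (sl_inj k β) (sl_closed k β) y z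
  rw [pull_sl hnull] at h
  exact h.symm

/-! ### Enumerations -/

theorem isClopen_count {P : (ℕ → Bool) → ℕ → Prop} (hP : ∀ q, IsClopen {S | P S q})
    (hd : ∀ S, DecidablePred (P S)) (q : ℕ) : ∀ m, IsClopen {S | @Nat.count (P S) (hd S) q = m} := by
  induction q with
  | zero =>
    intro m
    have : {S : ℕ → Bool | @Nat.count (P S) (hd S) 0 = m} = {_S | 0 = m} := by
      ext S
      simp
    rw [this]
    by_cases h : 0 = m
    · simp [h, isClopen_univ]
    · simp [h, isClopen_empty]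
  | succ q ih =>
    intro m
    have : {S : ℕ → Bool | @Nat.count (P S) (hd S) (q + 1) = m} =
        ({S | P S q} ∩ {S | ∃ m', m' + 1 = m ∧ @Nat.count (P S) (hd S) q = m'}) ∪
          ({S | P S q}ᶜ ∩ {S | @Nat.count (P S) (hd S) q = m}) := by
      ext S
      have h1 := @Nat.count_succ (P S) (hd S) q
      by_cases hq : P S q
      · rw [if_pos hq] at h1
        simp only [mem_ofPred_eq, mem_union, mem_inter_iff, hq, true_and, mem_compl_iff,
          not_true, false_and, or_false, h1]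
        constructor
        · intro h; exact ⟨_, h, rfl⟩
        · rintro ⟨m', h2, h3⟩; rw [h3, h2]
      · rw [if_neg hq] at h1
        simp only [mem_ofPred_eq, mem_union, mem_inter_iff, hq, false_and, mem_compl_iff,
          not_false_eq_true, true_and, false_or, h1, Nat.add_zero]
    rw [this]
    refine IsClopen.union ((hP q).inter ?_) ((hP q).compl.inter (ih m))
    cases m with
    | zero =>
      have : {S : ℕ → Bool | ∃ m', m' + 1 = 0 ∧ @Nat.count (P S) (hd S) q = m'} = ∅ := by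
        ext S
        simp
      rw [this]
      exact isClopen_empty
    | succ m =>
      have : {S : ℕ → Bool | ∃ m', m' + 1 = m + 1 ∧ @Nat.count (P S) (hd S) q = m'} =
          {S | @Nat.count (P S) (hd S) q = m} := by
        ext S
        simp
      rw [this]
      exact ih m

theorem isClopen_nth {P : (ℕ → Bool) → ℕ → Prop} (hP : ∀ q, IsClopen {S | P S q})
    (hinf : ∀ S, (Set.ofPred (P S)).Infinite) (m q : ℕ) : IsClopen {S | Nat.nth (P S) m = q} := by
  classical
  have : {S | Nat.nth (P S) m = q} = {S | P S q} ∩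
      {S | @Nat.count (P S) (Classical.decPred _) q = m} := by
    ext S
    simp only [mem_ofPred_eq, mem_inter_iff]
    constructor
    · rintro rfl
      exact ⟨Nat.nth_mem_of_infinite (hinf S) m, Nat.count_nth_of_infinite (hinf S) m⟩
    · rintro ⟨h1, rfl⟩
      exact Nat.nth_count h1
  rw [this]
  exact (hP q).inter (isClopen_count hP (fun S => Classical.decPred _) q m)

/-- A numbering of `USl`. -/
noncomputable def eUS : USl ≃ ℕ := Classical.choice nonempty_equiv_of_countable

/-- Enumerations of infinite subsets of `USl`. -/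
noncomputable def enumU (W : Set USl) (m : ℕ) : USl :=
  eUS.symm (Nat.nth (fun q => eUS.symm q ∈ W) m)

theorem ofPred_infinite {W : Set USl} (hW : W.Infinite) :
    (Set.ofPred (fun q => eUS.symm q ∈ W)).Infinite := by
  have : (fun q => eUS.symm q ∈ W) =
      fun q => q ∈ eUS '' W := by
    funext q
    apply propext
    constructor
    · intro h
      exact ⟨_, h, by simp⟩
    · rintro ⟨u, hu, rfl⟩
      simpa using hu
  rw [this]
  exact hW.image eUS.injective.injOn

theorem enumU_inj {W : Set USl} (hW : W.Infinite) : Function.Injective (enumU W) := by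
  intro m m' h
  exact Nat.nth_injective (ofPred_infinite hW) (eUS.symm.injective h)

theorem range_enumU {W : Set USl} (hW : W.Infinite) : range (enumU W) = W := by
  ext u
  constructor
  · rintro ⟨m, rfl⟩
    exact Nat.nth_mem_of_infinite (ofPred_infinite hW) m
  · intro hu
    have h1 : eUS u ∈ range (Nat.nth (fun q => eUS.symm q ∈ W)) := by
      rw [Nat.range_nth_of_infinite (ofPred_infinite hW)]
      simpa using hu
    obtain ⟨m, hm⟩ := h1
    refine ⟨m, ?_⟩
    rw [enumU, hm, Equiv.symm_apply_apply]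

theorem isClopen_enumU {W : (ℕ → Bool) → Set USl} (hW : ∀ u, IsClopen {S | u ∈ W S})
    (hinf : ∀ S, (W S).Infinite) (m : ℕ) (u : USl) : IsClopen {S | enumU (W S) m = u} := by
  have := isClopen_nth (P := fun S q => eUS.symm q ∈ W S)
    (fun q => hW _) (fun S => ofPred_infinite (hinf S)) m (eUS u)
  convert this using 3 with S
  rw [enumU, Equiv.symm_apply_eq]

theorem isClopen_pull {W : (ℕ → Bool) → Set USl} (hW : ∀ u, IsClopen {S | u ∈ W S})
    (hinf : ∀ S, (W S).Infinite) (B : Interp a USl) (i : ℕ) (t : Fin (a i) → ℕ) :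
    IsClopen {S | pull B (enumU (W S)) i t} := by
  have key : ∀ (Q : (Fin (a i) → USl) → Prop),
      IsOpen {S | Q (fun k => enumU (W S) (t k))} := by
    intro Q
    have : {S | Q (fun k => enumU (W S) (t k))} =
        ⋃ u ∈ {u : Fin (a i) → USl | Q u}, ⋂ k, {S | enumU (W S) (t k) = u k} := by
      ext S
      simp only [mem_ofPred_eq, mem_iUnion, mem_iInter, exists_prop]
      constructor
      · intro h
        exact ⟨_, h, fun k => rfl⟩
      · rintro ⟨u, hu, h⟩
        have : (fun k => enumU (W S) (t k)) = u := funext h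
        rw [this]
        exact hu
    rw [this]
    refine isOpen_biUnion fun u _ => ?_
    exact isOpen_iInter_of_finite fun k => (isClopen_enumU hW hinf (t k) (u k)).isOpen
  constructor
  · rw [← isOpen_compl_iff]
    exact key (fun u => ¬ B i u)
  · exact key (fun u => B i u)

/-! ### The assembly -/

/-- The elements used for the parameter `S`. -/
def WS (D : ℕ ⊕ ℕ → Interp a ℕ) (b : ℕ ⊕ ℕ → ℕ) (S : ℕ → Bool) : Set USl :=
  {u | Conn (D u.1) (b u.1) u.2.2 ∧ (∀ i, u.1 = Sum.inl i → S i = true)}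

theorem isClopen_WS (D : ℕ ⊕ ℕ → Interp a ℕ) (b : ℕ ⊕ ℕ → ℕ) (u : USl) :
    IsClopen {S | u ∈ WS D b S} := by
  have hc : ∀ p : Prop, IsClopen {_S : ℕ → Bool | p} := by
    intro p
    by_cases h : p
    · simp [h, isClopen_univ]
    · simp [h, isClopen_empty]
  obtain ⟨k, β, y⟩ := u
  have : {S | (k, β, y) ∈ WS D b S} = {_S | Conn (D k) (b k) y} ∩
      {S : ℕ → Bool | (∀ i, k = Sum.inl i → S i = true)} := by
    ext S
    simp only [WS, mem_ofPred_eq, mem_inter_iff]
  rw [this]
  refine (hc _).inter ?_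
  cases k with
  | inl i =>
    have : {S : ℕ → Bool | ∀ i', (Sum.inl i : ℕ ⊕ ℕ) = Sum.inl i' → S i' = true} =
        (fun S : ℕ → Bool => S i) ⁻¹' {true} := by
      ext S
      simp
    rw [this]
    exact (isClopen_discrete {true}).preimage (continuous_apply i)
  | inr j => simp [isClopen_univ]

theorem WS_infinite (D : ℕ ⊕ ℕ → Interp a ℕ) (b : ℕ ⊕ ℕ → ℕ) (S : ℕ → Bool) :
    (WS D b S).Infinite := by
  refine infinite_of_injective_forall_mem (f := fun n : ℕ => sl (Sum.inr 0) n (b (Sum.inr 0)))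
    (fun i i' h => ?_) (fun i => ⟨Conn.refl _ _, fun j h => ?_⟩)
  · have := congrArg (fun u : USl => u.2.1) h
    simpa [sl] using this
  · simp [sl] at h

theorem WS_closed {D : ℕ ⊕ ℕ → Interp a ℕ} (hnull : ∀ k k', NullEq (D k) (D k'))
    (b : ℕ ⊕ ℕ → ℕ) (S : ℕ → Bool) {u x : USl} (hu : u ∈ WS D b S)
    (h : Adj (slB D) u x) : x ∈ WS D b S := by
  obtain ⟨h1, h2⟩ := adj_slB h
  obtain ⟨k, β, y⟩ := u
  obtain ⟨k', β', y'⟩ := x
  simp only at h1 h2
  subst h1 h2
  have h3 : Conn (D k) y y' :=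
    (sl_conn hnull k β y y').1 (Relation.ReflTransGen.single h)
  exact ⟨hu.1.trans h3, hu.2⟩

/-- Each component has infinitely many isomorphic copies. -/
def Inf (N : Interp a ℕ) : Prop :=
  ∀ m, ∀ F : Finset ℕ, ∃ m', CEq N m N m' ∧ ∀ x ∈ F, ¬ Conn N x m'

theorem build (D : ℕ ⊕ ℕ → Interp a ℕ) (b : ℕ ⊕ ℕ → ℕ)
    (hnull : ∀ k k', NullEq (D k) (D k'))
    (h1 : ∀ i i', CEq (D (Sum.inl i)) (b (Sum.inl i)) (D (Sum.inl i')) (b (Sum.inl i')) → i = i')
    (h2 : ∀ i j, ¬ CEq (D (Sum.inr j)) (b (Sum.inr j)) (D (Sum.inl i)) (b (Sum.inl i))) :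
    ∃ N : (ℕ → Bool) → Interp a ℕ,
      (∀ i (t : Fin (a i) → ℕ), IsClopen {S | N S i t}) ∧
      (∀ S, Inf (N S)) ∧
      (∀ S m, ∃ k, CEq (N S) m (D k) (b k)) ∧
      (∀ S j, ∃ m, CEq (D (Sum.inr j)) (b (Sum.inr j)) (N S) m) ∧
      (∀ S S', GIso (N S) (N S') → S = S') := by
  classical
  let W := WS D b
  let N : (ℕ → Bool) → Interp a ℕ := fun S => pull (slB D) (enumU (W S))
  have hinj : ∀ S, Function.Injective (enumU (W S)) := fun S => enumU_inj (WS_infinite D b S)
  have hrange : ∀ S, range (enumU (W S)) = W S := fun S => range_enumU (WS_infinite D b S)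
  have hmem : ∀ S m, enumU (W S) m ∈ W S := by
    intro S m
    have h3 : enumU (W S) m ∈ range (enumU (W S)) := ⟨m, rfl⟩
    exact (Set.ext_iff.1 (hrange S) _).1 h3
  have hcl : ∀ S u x, Adj (slB D) (enumU (W S) u) x → x ∈ range (enumU (W S)) := by
    intro S u x h
    rw [hrange]
    exact WS_closed hnull b S (hmem S u) h
  have hN : ∀ S m, CEq (N S) m (slB D) (enumU (W S) m) := fun S m =>
    CEq.of_ciso (pull_ciso (slB D) (enumU (W S)) (hinj S) (hcl S) m)
  have hNc : ∀ S m m', Conn (N S) m m' ↔ Conn (slB D) (enumU (W S) m) (enumU (W S) m') :=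
    fun S m m' => pull_conn (slB D) (enumU (W S)) (hinj S) (hcl S) m m'
  have hk : ∀ S m, CEq (N S) m (D (enumU (W S) m).1) (b (enumU (W S) m).1) := by
    intro S m
    have h3 := hmem S m
    have h4 := hN S m
    generalize enumU (W S) m = u at h3 h4
    obtain ⟨k, β, y⟩ := u
    refine h4.trans ?_
    have h5 : CEq (D k) y (slB D) (sl k β y) := CEq.of_ciso (sl_ciso hnull k β y)
    exact h5.symm.trans (CEq.of_conn h3.1.symm)
  have hex : ∀ S (k : ℕ ⊕ ℕ) (β : ℕ), sl k β (b k) ∈ W S → ∃ m, enumU (W S) m = sl k β (b k) := by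
    intro S k β h
    exact (Set.ext_iff.1 (hrange S) _).2 h
  -- decoding
  have hdec : ∀ S i, S i = true ↔ ∃ m, CEq (N S) m (D (Sum.inl i)) (b (Sum.inl i)) := by
    intro S i
    constructor
    · intro hS
      obtain ⟨m, hm⟩ := hex S (Sum.inl i) 0 ⟨Conn.refl _ _, fun i' h => by
        have : i = i' := by simpa [sl] using h
        rw [← this]; exact hS⟩
      refine ⟨m, ?_⟩
      have := hk S m
      rw [hm] at this
      exact this
    · rintro ⟨m, h⟩
      have h6 := (hk S m).symm.trans h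
      have h7 := hmem S m
      generalize enumU (W S) m = u at h6 h7
      obtain ⟨k, β, y⟩ := u
      cases k with
      | inl i' =>
        have := h1 i' i h6
        rw [← this]
        exact h7.2 i' rfl
      | inr j => exact absurd h6 (h2 i j)
  refine ⟨N, ?_, ?_, ?_, ?_, ?_⟩
  · intro i t
    exact isClopen_pull (isClopen_WS D b) (WS_infinite D b) (slB D) i t
  · intro S m F
    have h3 := hmem S m
    have h4 := hk S m
    generalize enumU (W S) m = u at h3 h4
    obtain ⟨k, β, y⟩ := u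
    -- a copy number which does not occur among the elements of `F`
    obtain ⟨β', hβ'⟩ := Infinite.exists_notMem_finset (F.image fun x => (enumU (W S) x).2.1)
    obtain ⟨m', hm'⟩ := hex S k β' ⟨Conn.refl _ _, h3.2⟩
    refine ⟨m', ?_, fun x hx hc => hβ' ?_⟩
    · have := hk S m'
      rw [hm'] at this
      exact h4.trans this.symm
    · rw [hNc] at hc
      have := (conn_slB hc).2
      rw [hm'] at this
      exact Finset.mem_image.2 ⟨x, hx, this⟩
  · exact fun S m => ⟨_, hk S m⟩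
  · intro S j
    obtain ⟨m, hm⟩ := hex S (Sum.inr j) 0 ⟨Conn.refl _ _, fun i h => by simp [sl] at h⟩
    refine ⟨m, ?_⟩
    have := hk S m
    rw [hm] at this
    exact this.symm
  · rintro S S' ⟨g, hg⟩
    have hi : ∀ m, CEq (N S) m (N S') (g m) := fun m => CEq.of_ciso (GIso.ciso g hg m)
    funext i
    rw [Bool.eq_iff_iff, hdec, hdec]
    constructor
    · rintro ⟨m, h⟩
      exact ⟨g m, (hi m).symm.trans h⟩
    · rintro ⟨m, h⟩
      refine ⟨g.symm m, ?_⟩
      have := hi (g.symm m)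
      rw [Equiv.apply_symm_apply] at this
      exact this.trans h

end Pool.Agent.H623R2.VD
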